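import Pool.Agent.Lib.MP_8f49b0_lc.MM.A.CutDefs

/-!
# Partial sums and cuts (module A-CUT)

`exists_th` (in A/CutDefs.lean): `Order.iso_of_countable_dense`. `PS.step`: for `n ≤ m` the partial sums satisfy `s ≤ s'` and `s' + 2 ^ (-m) ≤ s + 2 ^ (-n)` (same digits because `u` is a function; geometric sum). `exists_PS`: `exists_add_u` for the
missing digits. `cut_of_gap`: if `c` decides `n` digits and `th q < s + 2 ^ (-n)` then some extension (further digits such that all further binary digits are `1`) is in `CutA`. `not_cut`: `PS.step` and a common `n`.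
-/

namespace Pool.Agent.Lib.MP_8f49b0_lc.MM

private theorem cut_sum (f : Bool) (σ : ℕ → Bool) (n k : ℕ) :
    (∑ i ∈ Finset.range n, (if xor f (σ i) then (1 / 2 : ℚ) ^ (i + 1) else 0)) ≤
      (∑ i ∈ Finset.range (n + k), (if xor f (σ i) then (1 / 2 : ℚ) ^ (i + 1) else 0)) ∧
    (∑ i ∈ Finset.range (n + k), (if xor f (σ i) then (1 / 2 : ℚ) ^ (i + 1) else 0)) + (1 / 2 : ℚ) ^ (n + k) ≤
      (∑ i ∈ Finset.range n, (if xor f (σ i) then (1 / 2 : ℚ) ^ (i + 1) else 0)) + (1 / 2 : ℚ) ^ n := by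
  induction k with
  | zero => exact ⟨le_refl _, le_refl _⟩
  | succ k ih =>
    obtain ⟨ih1, ih2⟩ := ih
    have e : n + (k + 1) = n + k + 1 := by omega
    rw [e, Finset.sum_range_succ]
    have hp : (0 : ℚ) < (1 / 2) ^ (n + k + 1) := by positivity
    have hp2 : (1 / 2 : ℚ) ^ (n + k) = (1 / 2) ^ (n + k + 1) + (1 / 2) ^ (n + k + 1) := by
      rw [pow_succ]
      ring
    split_ifs with h
    · constructor
      · linarith
      · linarith
    · constructor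
      · linarith
      · linarith

private theorem cut_ones (f : Bool) (σ : ℕ → Bool) (n k : ℕ) (h : ∀ i, n ≤ i → xor f (σ i) = true) :
    (∑ i ∈ Finset.range (n + k), (if xor f (σ i) then (1 / 2 : ℚ) ^ (i + 1) else 0)) + (1 / 2 : ℚ) ^ (n + k) =
      (∑ i ∈ Finset.range n, (if xor f (σ i) then (1 / 2 : ℚ) ^ (i + 1) else 0)) + (1 / 2 : ℚ) ^ n := by
  induction k with
  | zero => rfl
  | succ k ih =>
    have e : n + (k + 1) = n + k + 1 := by omega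
    rw [e, Finset.sum_range_succ, ← ih, if_pos (h (n + k) (by omega))]
    have hp2 : (1 / 2 : ℚ) ^ (n + k) = (1 / 2) ^ (n + k + 1) + (1 / 2) ^ (n + k + 1) := by
      rw [pow_succ]
      ring
    rw [hp2]
    ring

theorem PS.mono {f : Bool} {u u' : Finset (O × ℕ × Bool)} {ξ : O} {n : ℕ} {s : ℚ} (h : PS f u ξ n s) (huu : u ⊆ u') :
    PS f u' ξ n s := by
  obtain ⟨σ, h1, h2⟩ := h
  exact ⟨σ, fun i hi => huu (h1 i hi), h2⟩

theorem PS.step {f : Bool} {u : Finset (O × ℕ × Bool)} (hu : IsU u) {ξ : O} {n m : ℕ} {s s' : ℚ} (h : PS f u ξ n s)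
    (h' : PS f u ξ m s') (hnm : n ≤ m) : s ≤ s' ∧ s' + (1 / 2 : ℚ) ^ m ≤ s + (1 / 2 : ℚ) ^ n := by
  obtain ⟨σ, h1, rfl⟩ := h
  obtain ⟨σ', h2, rfl⟩ := h'
  obtain ⟨k, rfl⟩ := Nat.exists_eq_add_of_le hnm
  have e : (∑ i ∈ Finset.range n, (if xor f (σ i) then (1 / 2 : ℚ) ^ (i + 1) else 0)) =
      ∑ i ∈ Finset.range n, (if xor f (σ' i) then (1 / 2 : ℚ) ^ (i + 1) else 0) := by
    refine Finset.sum_congr rfl fun i hi => ?_
    have hi' := Finset.mem_range.1 hi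
    rw [hu _ _ _ _ (h1 i hi') (h2 i (by omega))]
  rw [e]
  exact cut_sum f σ' n k

theorem PS.nonneg {f : Bool} {u : Finset (O × ℕ × Bool)} {ξ : O} {n : ℕ} {s : ℚ} (h : PS f u ξ n s) :
    0 ≤ s ∧ s + (1 / 2 : ℚ) ^ n ≤ 1 := by
  obtain ⟨σ, -, rfl⟩ := h
  have := cut_sum f σ 0 n
  rw [Finset.sum_range_zero, Nat.zero_add, pow_zero, zero_add] at this
  exact this

/-- less digits -/
theorem PS.le {f : Bool} {u : Finset (O × ℕ × Bool)} {ξ : O} {n m : ℕ} {s : ℚ} (h : PS f u ξ n s) (hmn : m ≤ n) :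
    ∃ s', PS f u ξ m s' := by
  obtain ⟨σ, h1, -⟩ := h
  exact ⟨_, σ, fun i hi => h1 i (by omega), rfl⟩

namespace Code

variable {K : Code}

theorem Ok.isU {c : Pre} (hc : K.Ok c) : IsU c.u := fun ξ n b b' h h' => hc.chain.u_fun ξ n b b' h h'

/-- adding digits which are compatible with `c.u` -/
theorem Cut_add {c : Pre} (hc : K.Ok c) {ξ : O} (hξ : ξ < w1) (n : ℕ) (σ : ℕ → Bool)
    (hσ : ∀ i b, i < n → (ξ, i, b) ∈ c.u → b = σ i) :
    ∃ c', K.ex c' c ∧ (∀ i < n, (ξ, i, σ i) ∈ c'.u) ∧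
      ∀ v ∈ c'.u, v ∈ c.u ∨ v.1 = ξ := by
  classical
  obtain ⟨c', h1, h2⟩ := exists_add_u hc (u := c.u ∪ (Finset.range n).image (fun i => (ξ, i, σ i)))
    Finset.subset_union_left (by
      intro η i b b' h h'
      rw [Finset.mem_union, Finset.mem_image] at h h'
      rcases h with h | ⟨k, hk, hke⟩
      · rcases h' with h' | ⟨k', hk', hke'⟩
        · exact hc.isU η i b b' h h'
        · simp only [Prod.mk.injEq] at hke'
          obtain ⟨e1, e2, e3⟩ := hke'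
          rw [← e1, ← e2] at h
          rw [← e3]
          exact hσ k' b (Finset.mem_range.1 hk') h
      · simp only [Prod.mk.injEq] at hke
        obtain ⟨e1, e2, e3⟩ := hke
        rcases h' with h' | ⟨k', hk', hke'⟩
        · rw [← e1, ← e2] at h'
          rw [← e3]
          exact (hσ k b' (Finset.mem_range.1 hk) h').symm
        · simp only [Prod.mk.injEq] at hke'
          obtain ⟨f1, f2, f3⟩ := hke'
          rw [← e3, ← f3, e2, f2])
    (by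
      intro v hv
      rw [Finset.mem_union, Finset.mem_image] at hv
      rcases hv with hv | ⟨k, hk, rfl⟩
      · exact hc.chain.u_lt v hv
      · exact hξ)
  refine ⟨c', h1, ?_, ?_⟩
  · intro i hi
    rw [h2, Finset.mem_union, Finset.mem_image]
    exact Or.inr ⟨i, Finset.mem_range.2 hi, rfl⟩
  · intro v hv
    rw [h2, Finset.mem_union, Finset.mem_image] at hv
    rcases hv with hv | ⟨k, hk, rfl⟩
    · exact Or.inl hv
    · exact Or.inr rfl

/-- the digits of `c.u`, and `false` where nothing is decided -/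
theorem Cut_exists_sig {c : Pre} (hc : K.Ok c) (ξ : O) : ∃ σ : ℕ → Bool, (∀ i b, (ξ, i, b) ∈ c.u → b = σ i) ∧
    ∀ i, (∀ b, (ξ, i, b) ∉ c.u) → σ i = false := by
  classical
  refine ⟨fun i => decide ((ξ, i, true) ∈ c.u), ?_, ?_⟩
  · intro i b hb
    cases b with
    | true => simp [hb]
    | false =>
      have : (ξ, i, true) ∉ c.u := by
        intro h
        have := hc.isU _ _ _ _ hb h
        simp at this
      simp [this]
  · intro i hi
    simp [hi true]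

theorem exists_PS {c : Pre} (hc : K.Ok c) (f : Bool) {ξ : O} (hξ : ξ < w1) (n : ℕ) :
    ∃ c', K.ex c' c ∧ ∃ s, PS f c'.u ξ n s := by
  obtain ⟨σ, hσ, -⟩ := Cut_exists_sig hc ξ
  obtain ⟨c', h1, h2, -⟩ := Cut_add hc hξ n σ (fun i b _ h => hσ i b h)
  exact ⟨c', h1, _, σ, h2, rfl⟩

/-- prescribing the digits of a new real -/
theorem exists_digits {c : Pre} (hc : K.Ok c) {ξ : O} (hξ : ξ < w1) (hnew : ∀ n b, (ξ, n, b) ∉ c.u) (n : ℕ) (σ : ℕ → Bool) :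
    ∃ c', K.ex c' c ∧ ∀ i < n, (ξ, i, σ i) ∈ c'.u := by
  obtain ⟨c', h1, h2, -⟩ := Cut_add hc hξ n σ (fun i b _ h => absurd h (hnew i b))
  exact ⟨c', h1, h2⟩

private theorem cut_open_set (f : Bool) (ξ : O) (q : ℚ) :
    ∀ c ∈ {c | K.Ok c ∧ ∃ n s, PS f c.u ξ n s ∧ ((th q : Set.Ioo (0 : ℚ) 1) : ℚ) ≤ s}, ∀ c', K.ex c' c →
      c' ∈ {c | K.Ok c ∧ ∃ n s, PS f c.u ξ n s ∧ ((th q : Set.Ioo (0 : ℚ) 1) : ℚ) ≤ s} := by
  rintro c ⟨hc, n, s, h1, h2⟩ c' hc'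
  exact ⟨hc'.1, n, s, h1.mono hc'.2.u, h2⟩

theorem mem_CutA_of {c : Pre} (hc : K.Ok c) {f : Bool} {ξ : O} {q : ℚ} {n : ℕ} {s : ℚ} (h : PS f c.u ξ n s)
    (hq : ((th q : Set.Ioo (0 : ℚ) 1) : ℚ) ≤ s) : c ∈ CutA K f ξ q := by
  exact subset_rg (fun _ hd => hd.1) (cut_open_set f ξ q) ⟨hc, n, s, h, hq⟩

theorem not_mem_CutA {c : Pre} (hc : K.Ok c) {f : Bool} {ξ : O} {q : ℚ} {n : ℕ} {s : ℚ} (h : PS f c.u ξ n s)
    (hq : s + (1 / 2 : ℚ) ^ n ≤ ((th q : Set.Ioo (0 : ℚ) 1) : ℚ)) : ∀ c', K.ex c' c → c' ∉ CutA K f ξ q := by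
  intro c' hc' hmem
  obtain ⟨c'', h1, h2, m, s', h3, h4⟩ := mem_rg_self hmem
  have hu : IsU c''.u := h2.isU
  have h5 : PS f c''.u ξ n s := h.mono (hc'.2.u.trans h1.2.u)
  have hp : (0 : ℚ) < (1 / 2) ^ n := by positivity
  have hp' : (0 : ℚ) < (1 / 2) ^ m := by positivity
  rcases le_total n m with hnm | hnm
  · have := (PS.step hu h5 h3 hnm).2
    linarith
  · have := (PS.step hu h3 h5 hnm).1
    linarith

theorem cut_of_gap {c : Pre} (hc : K.Ok c) {f : Bool} {ξ : O} (hξ : ξ < w1) {q : ℚ} {n : ℕ} {s : ℚ} (h : PS f c.u ξ n s)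
    (hnew : ∀ m b, n ≤ m → (ξ, m, b) ∉ c.u) (hq : ((th q : Set.Ioo (0 : ℚ) 1) : ℚ) < s + (1 / 2 : ℚ) ^ n) :
    ∃ c', K.ex c' c ∧ c' ∈ CutA K f ξ q := by
  obtain ⟨σ, h1, rfl⟩ := h
  obtain ⟨k, hk⟩ := exists_pow_lt_of_lt_one (sub_pos.2 hq) (by norm_num : (1 / 2 : ℚ) < 1)
  obtain ⟨τ, hτ⟩ : ∃ τ : ℕ → Bool, τ = fun i => if i < n then σ i else !f := ⟨_, rfl⟩
  have hτ1 : ∀ i < n, τ i = σ i := fun i hi => by rw [hτ]; simp [hi]
  have hτ2 : ∀ i, n ≤ i → τ i = !f := fun i hi => by rw [hτ]; simp [not_lt.2 hi]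
  obtain ⟨c', h2, h3, -⟩ := Cut_add hc hξ (n + k) τ (by
    intro i b _ hb
    by_cases hin : i < n
    · rw [hτ1 i hin]
      exact hc.isU _ _ _ _ hb (h1 i hin)
    · exact absurd hb (hnew i b (by omega)))
  refine ⟨c', h2, mem_CutA_of h2.1 ⟨τ, h3, rfl⟩ ?_⟩
  have h4 := cut_ones f τ n k (fun i hi => by rw [hτ2 i hi]; cases f <;> rfl)
  have e : (∑ i ∈ Finset.range n, (if xor f (τ i) then (1 / 2 : ℚ) ^ (i + 1) else 0)) =
      ∑ i ∈ Finset.range n, (if xor f (σ i) then (1 / 2 : ℚ) ^ (i + 1) else 0) := by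
    refine Finset.sum_congr rfl fun i hi => ?_
    rw [hτ1 i (Finset.mem_range.1 hi)]
  rw [e] at h4
  have h5 : (1 / 2 : ℚ) ^ (n + k) ≤ (1 / 2) ^ k := by
    rw [pow_add]
    have h6 : (1 / 2 : ℚ) ^ n ≤ 1 := pow_le_one₀ (by norm_num) (by norm_num)
    have h7 : (0 : ℚ) < (1 / 2) ^ k := by positivity
    calc (1 / 2 : ℚ) ^ n * (1 / 2) ^ k ≤ 1 * (1 / 2) ^ k := mul_le_mul_of_nonneg_right h6 h7.le
      _ = (1 / 2) ^ k := one_mul _
  linarith

theorem reg_CutA (f : Bool) (ξ : O) (q : ℚ) : K.Reg (CutA K f ξ q) := by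
  exact reg_rg (cut_open_set f ξ q)

end Code

end Pool.Agent.Lib.MP_8f49b0_lc.MM
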