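import Pool.Agent.Lib.MP_8f49b0_lc.MM.A.Cut

/-!
# The order of the cuts (module A-CUT2)

`cut_down`: clear. `cut_open`: a condition in `CutA .. q` has an extension with `th q ≤ s` for a partial sum; extend by a further digit such that the next binary digit which is `1` comes: then `s < s'`, and take `r` with `th r = s'`
(`0 < s' < 1`). `cut_bdd`, `cut_nonempty`: force a binary digit `0` (`1`) at a place which is not decided. `cut_lt`: let the first different digit be the `n`-th; partial sums of the smaller real are `< d = ` the `(n + 1)`-st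
partial sum of the bigger real, and `d = th q` for some `q`. `cut_interval`: choose `n` and a dyadic interval `[s, s + 2 ^ (-n)]` between `th q0` and `th q1`, and `ξ` above `γ` which does not occur in `c.u`.
-/

namespace Pool.Agent.Lib.MP_8f49b0_lc.MM

namespace Code

variable {K : Code}

/-- all digits of the real with the index `ξ` can be prescribed above a bound -/
private theorem cut2_digits {c : Pre} (hc : K.Ok c) {ξ : O} (hξ : ξ < w1) :
    ∃ (N : ℕ) (σ : ℕ → Bool), ∀ τ : ℕ → Bool, (∀ i < N, τ i = σ i) → ∀ M,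
      ∃ c', K.ex c' c ∧ ∀ i < M, (ξ, i, τ i) ∈ c'.u := by
  classical
  obtain ⟨N, hN⟩ : ∃ N : ℕ, ∀ v ∈ c.u, v.2.1 < N := by
    refine ⟨(c.u.sup fun v => v.2.1) + 1, fun v hv => ?_⟩
    have := Finset.le_sup (f := fun v : O × ℕ × Bool => v.2.1) hv
    exact Nat.lt_succ_of_le this
  refine ⟨N, fun i => decide ((ξ, i, true) ∈ c.u), fun τ hτ M => ?_⟩
  have hold : ∀ n b, (ξ, n, b) ∈ c.u → b = τ n := by
    intro n b h
    rw [hτ n (hN _ h)]
    cases b with
    | true => simp [h]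
    | false =>
      have h2 : (ξ, n, true) ∉ c.u := fun h3 => by
        have := hc.chain.u_fun ξ n true false h3 h
        exact absurd this (by decide)
      simp [h2]
  obtain ⟨c', h1, h2⟩ := exists_add_u hc (u := c.u ∪ (Finset.range M).image fun i => (ξ, i, τ i))
    Finset.subset_union_left (by
      intro η n b b' h h'
      rw [Finset.mem_union, Finset.mem_image] at h h'
      rcases h with h | ⟨i, -, h⟩ <;> rcases h' with h' | ⟨j, -, h'⟩
      · exact hc.chain.u_fun η n b b' h h'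
      · simp only [Prod.mk.injEq] at h'
        obtain ⟨rfl, rfl, rfl⟩ := h'
        exact hold _ _ h
      · simp only [Prod.mk.injEq] at h
        obtain ⟨rfl, rfl, rfl⟩ := h
        exact (hold _ _ h').symm
      · simp only [Prod.mk.injEq] at h h'
        obtain ⟨rfl, rfl, rfl⟩ := h
        obtain ⟨-, rfl, rfl⟩ := h'
        rfl) (by
      intro v hv
      rw [Finset.mem_union, Finset.mem_image] at hv
      rcases hv with hv | ⟨i, -, rfl⟩
      · exact hc.chain.u_lt v hv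
      · exact hξ)
  refine ⟨c', h1, fun i hi => ?_⟩
  rw [h2]
  exact Finset.mem_union_right _ (Finset.mem_image.2 ⟨i, Finset.mem_range.2 hi, rfl⟩)

/-- one more digit with a prescribed binary digit -/
private theorem cut2_next {c : Pre} (hc : K.Ok c) {ξ : O} (hξ : ξ < w1) (f b : Bool) (n : ℕ) :
    ∃ c', K.ex c' c ∧ ∃ m s, n ≤ m ∧ PS f c'.u ξ m s ∧
      PS f c'.u ξ (m + 1) (s + if b then (1 / 2 : ℚ) ^ (m + 1) else 0) := by
  obtain ⟨N, σ, hσ⟩ := cut2_digits hc hξ
  set m := max N n with hm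
  obtain ⟨c', h1, h2⟩ := hσ (fun i => if i < m then σ i else xor f b) (by
    intro i hi
    have : i < m := hi.trans_le (le_max_left _ _)
    simp [this]) (m + 1)
  refine ⟨c', h1, m, ∑ i ∈ Finset.range m, (if xor f (if i < m then σ i else xor f b) then (1 / 2 : ℚ) ^ (i + 1) else 0),
    le_max_right _ _, ⟨_, fun i hi => h2 i (by omega), rfl⟩, ⟨_, fun i hi => h2 i hi, ?_⟩⟩
  rw [Finset.sum_range_succ]
  congr 1
  simp only [lt_irrefl, if_false]
  cases f <;> cases b <;> simp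


theorem cut_down {f : Bool} {ξ : O} {q r : ℚ} (hrq : r ≤ q) : CutA K f ξ q ⊆ CutA K f ξ r := by
  intro c hc
  refine ⟨hc.1, fun c' hc' => ?_⟩
  obtain ⟨c'', h1, h2, n, s, h3, h4⟩ := hc.2 c' hc'
  refine ⟨c'', h1, h2, n, s, h3, le_trans ?_ h4⟩
  have : th r ≤ th q := th.monotone hrq
  exact this

theorem cut_open {f : Bool} {ξ : O} (hξ : ξ < w1) {q : ℚ} {c : Pre} (hc : c ∈ CutA K f ξ q) :
    ∃ c', K.ex c' c ∧ ∃ r, q < r ∧ c' ∈ CutA K f ξ r := by
  obtain ⟨c1, h1, h2, n, s, h3, h4⟩ := mem_rg_self hc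
  obtain ⟨c', h5, m, s', h6, h7, h8⟩ := cut2_next h2 hξ f true n
  have h9 := (PS.step (Ok.isU h5.1) (h3.mono h5.2.u) h7 h6).1
  have h10 := (PS.nonneg h8).2
  simp only [if_true] at h8 h10
  have hpos : (0 : ℚ) < (1 / 2 : ℚ) ^ (m + 1) := by positivity
  have hq0 : (0 : ℚ) < ((th q : Set.Ioo (0 : ℚ) 1) : ℚ) := (th q).2.1
  set x : ℚ := s' + (1 / 2 : ℚ) ^ (m + 1) / 2 with hx
  have hx1 : x ∈ Set.Ioo (0 : ℚ) 1 := by
    constructor
    · linarith
    · linarith
  refine ⟨c', ex_trans (reg_CutA f ξ q |>.ok c hc) h5 h1, th.symm ⟨x, hx1⟩, ?_, ?_⟩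
  · rw [← th.lt_iff_lt, OrderIso.apply_symm_apply, ← Subtype.coe_lt_coe]
    change ((th q : Set.Ioo (0 : ℚ) 1) : ℚ) < x
    linarith
  · refine mem_CutA_of h5.1 h8 ?_
    rw [OrderIso.apply_symm_apply]
    change x ≤ _
    linarith

theorem cut_nonempty {f : Bool} {ξ : O} (hξ : ξ < w1) {c : Pre} (hc : K.Ok c) :
    ∃ c', K.ex c' c ∧ ∃ q, c' ∈ CutA K f ξ q := by
  obtain ⟨c', h5, m, s', h6, h7, h8⟩ := cut2_next hc hξ f true 0
  have h9 := (PS.nonneg h7).1
  have h10 := (PS.nonneg h8).2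
  simp only [if_true] at h8 h10
  have hpos : (0 : ℚ) < (1 / 2 : ℚ) ^ (m + 1) := by positivity
  set x : ℚ := s' + (1 / 2 : ℚ) ^ (m + 1) / 2 with hx
  have hx1 : x ∈ Set.Ioo (0 : ℚ) 1 := by
    constructor
    · linarith
    · linarith
  refine ⟨c', h5, th.symm ⟨x, hx1⟩, ?_⟩
  refine mem_CutA_of h5.1 h8 ?_
  rw [OrderIso.apply_symm_apply]
  change x ≤ _
  linarith

theorem cut_bdd {f : Bool} {ξ : O} (hξ : ξ < w1) {c : Pre} (hc : K.Ok c) :
    ∃ c', K.ex c' c ∧ ∃ q, ∀ c'', K.ex c'' c' → c'' ∉ CutA K f ξ q := by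
  obtain ⟨c', h5, m, s', h6, h7, h8⟩ := cut2_next hc hξ f false 0
  have h9 := (PS.nonneg h7).1
  have h10 := (PS.nonneg h7).2
  have h11 : (1 / 2 : ℚ) ^ (m + 1) = (1 / 2 : ℚ) ^ m / 2 := by rw [pow_succ]; ring
  simp only [Bool.false_eq_true, if_false, add_zero] at h8
  have hpos : (0 : ℚ) < (1 / 2 : ℚ) ^ m := by positivity
  set x : ℚ := s' + (1 / 2 : ℚ) ^ (m + 1) with hx
  have hx1 : x ∈ Set.Ioo (0 : ℚ) 1 := by
    constructor
    · rw [hx, h11]; linarith
    · rw [hx, h11]; linarith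
  refine ⟨c', h5, th.symm ⟨x, hx1⟩, ?_⟩
  refine not_mem_CutA h5.1 h8 ?_
  rw [OrderIso.apply_symm_apply]

end Code

end Pool.Agent.Lib.MP_8f49b0_lc.MM
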