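import Pool.Agent.Lib.MP_8f49b0_lc.MM.A.Cut

/-!
# The order of the cuts, 2 (module A-CUT3)

`cut_lt`: let the first different digit be the `n`-th, `s` the partial sum of the first `n` digits; `d = s + 2 ^ (-(n + 1))` is the partial sum of the first `n + 1` digits of `ξ'`, and `d = th q` for some `q`; `mem_CutA_of` for `ξ'` and
`not_mem_CutA` for `ξ` (partial sum `s` of `n + 1` digits). `cut_gt`: the same with the reversed digits. `exists_sep`: extend `c` by digits such that the two reals differ (first make both decided up to a large `n`, `exists_add_u`).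
`cut_interval`: choose `n` and a dyadic interval `[s, s + 2 ^ (-n)]` between `th q0` and `th q1`, and `ξ` above `γ` which does not occur in `c.u`; `exists_digits`.
-/

namespace Pool.Agent.Lib.MP_8f49b0_lc.MM

namespace Code

variable {K : Code}

private theorem cut3_aux (f : Bool) {ξ ξ' : O} {c : Pre} (hc : K.Ok c) (n : ℕ) (σ : ℕ → Bool)
    (h1 : ∀ i < n, (ξ, i, σ i) ∈ c.u ∧ (ξ', i, σ i) ∈ c.u) (h2 : (ξ, n, f) ∈ c.u) (h3 : (ξ', n, !f) ∈ c.u) :
    (∀ q, c ∈ CutA K f ξ q → c ∈ CutA K f ξ' q) ∧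
      ∃ q, c ∈ CutA K f ξ' q ∧ ∀ c', K.ex c' c → c' ∉ CutA K f ξ q := by
  obtain ⟨s, hs⟩ : ∃ s : ℚ, s = ∑ i ∈ Finset.range n, (if xor f (σ i) then (1 / 2 : ℚ) ^ (i + 1) else 0) := ⟨_, rfl⟩
  have hPn : PS f c.u ξ n s := ⟨σ, fun i hi => (h1 i hi).1, hs⟩
  obtain ⟨hs0, hs1⟩ := hPn.nonneg
  have hP : PS f c.u ξ (n + 1) s := by
    refine ⟨fun i => if i < n then σ i else f, fun i hi => ?_, ?_⟩
    · rcases Nat.lt_or_ge i n with h | h
      · simp only [h, if_true]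
        exact (h1 i h).1
      · have : i = n := by omega
        subst this
        simp only [lt_irrefl, if_false]
        exact h2
    · rw [Finset.sum_range_succ, hs]
      have e : (∑ i ∈ Finset.range n, (if xor f (if i < n then σ i else f) then (1 / 2 : ℚ) ^ (i + 1) else 0)) =
          ∑ i ∈ Finset.range n, (if xor f (σ i) then (1 / 2 : ℚ) ^ (i + 1) else 0) := by
        refine Finset.sum_congr rfl fun i hi => ?_
        rw [if_pos (Finset.mem_range.1 hi)]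
      rw [e]
      cases f <;> simp
  have hP' : PS f c.u ξ' (n + 1) (s + (1 / 2 : ℚ) ^ (n + 1)) := by
    refine ⟨fun i => if i < n then σ i else !f, fun i hi => ?_, ?_⟩
    · rcases Nat.lt_or_ge i n with h | h
      · simp only [h, if_true]
        exact (h1 i h).2
      · have : i = n := by omega
        subst this
        simp only [lt_irrefl, if_false]
        exact h3
    · rw [Finset.sum_range_succ, hs]
      have e : (∑ i ∈ Finset.range n, (if xor f (if i < n then σ i else !f) then (1 / 2 : ℚ) ^ (i + 1) else 0)) =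
          ∑ i ∈ Finset.range n, (if xor f (σ i) then (1 / 2 : ℚ) ^ (i + 1) else 0) := by
        refine Finset.sum_congr rfl fun i hi => ?_
        rw [if_pos (Finset.mem_range.1 hi)]
      rw [e]
      cases f <;> simp
  have hp : (0 : ℚ) < (1 / 2) ^ (n + 1) := by positivity
  have hp2 : (1 / 2 : ℚ) ^ n = (1 / 2) ^ (n + 1) + (1 / 2) ^ (n + 1) := by
    rw [pow_succ]
    ring
  refine ⟨?_, ?_⟩
  · intro q hq
    rcases le_or_gt ((th q : Set.Ioo (0 : ℚ) 1) : ℚ) (s + (1 / 2 : ℚ) ^ (n + 1)) with h | h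
    · exact mem_CutA_of hc hP' h
    · exact absurd hq (not_mem_CutA hc hP h.le c (ex_refl hc))
  · obtain ⟨q, hq⟩ := th.surjective ⟨s + (1 / 2 : ℚ) ^ (n + 1), by linarith, by linarith⟩
    refine ⟨q, mem_CutA_of hc hP' ?_, not_mem_CutA hc hP ?_⟩
    · rw [hq]
    · rw [hq]

private theorem cut3_digits {ξ ξ' : O} {u : Finset (O × ℕ × Bool)} (h : Lt u (fun _ : Unit => ξ) (fun _ => ξ')) :
    ∃ n, ∃ σ : ℕ → Bool, (∀ i < n, (ξ, i, σ i) ∈ u ∧ (ξ', i, σ i) ∈ u) ∧ (ξ, n, false) ∈ u ∧ (ξ', n, true) ∈ u := by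
  obtain ⟨n, h1, h2, h3⟩ := h ()
  have h4 : ∀ i, ∃ e, i < n → (ξ, i, e) ∈ u ∧ (ξ', i, e) ∈ u := by
    intro i
    by_cases hi : i < n
    · obtain ⟨e, he⟩ := h1 i hi
      exact ⟨e, fun _ => he⟩
    · exact ⟨false, fun h => absurd h hi⟩
  choose σ hσ using h4
  exact ⟨n, σ, hσ, h2, h3⟩

theorem cut_lt {ξ ξ' : O} {c : Pre} (hc : K.Ok c) (h : Lt c.u (fun _ : Unit => ξ) (fun _ => ξ')) :
    (∀ q, c ∈ CutA K false ξ q → c ∈ CutA K false ξ' q) ∧
      ∃ q, c ∈ CutA K false ξ' q ∧ ∀ c', K.ex c' c → c' ∉ CutA K false ξ q := by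
  obtain ⟨n, σ, h1, h2, h3⟩ := cut3_digits h
  exact cut3_aux false hc n σ h1 h2 h3

theorem cut_gt {ξ ξ' : O} {c : Pre} (hc : K.Ok c) (h : Lt c.u (fun _ : Unit => ξ) (fun _ => ξ')) :
    (∀ q, c ∈ CutA K true ξ' q → c ∈ CutA K true ξ q) ∧
      ∃ q, c ∈ CutA K true ξ q ∧ ∀ c', K.ex c' c → c' ∉ CutA K true ξ' q := by
  obtain ⟨n, σ, h1, h2, h3⟩ := cut3_digits h
  exact cut3_aux true hc n σ (fun i hi => (h1 i hi).symm) h3 h2

theorem exists_sep {ξ ξ' : O} (hξ : ξ < w1) (hξ' : ξ' < w1) (hne : ξ ≠ ξ') {c : Pre} (hc : K.Ok c) :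
    ∃ c', K.ex c' c ∧ (Lt c'.u (fun _ : Unit => ξ) (fun _ => ξ') ∨ Lt c'.u (fun _ : Unit => ξ') (fun _ => ξ)) := by
  classical
  -- a place which is not decided
  obtain ⟨N, hN⟩ : ∃ N : ℕ, ∀ v ∈ c.u, v.2.1 < N := by
    refine ⟨(c.u.sup (fun v => v.2.1)) + 1, fun v hv => ?_⟩
    exact Nat.lt_succ_of_le (Finset.le_sup (f := fun v : O × ℕ × Bool => v.2.1) hv)
  obtain ⟨σ, hσ, -⟩ := Cut_exists_sig hc ξ
  obtain ⟨τ, hτ, -⟩ := Cut_exists_sig hc ξ'
  obtain ⟨σ', hσ'⟩ : ∃ σ' : ℕ → Bool, σ' = fun i => if i < N then σ i else false := ⟨_, rfl⟩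
  obtain ⟨τ', hτ'⟩ : ∃ τ' : ℕ → Bool, τ' = fun i => if i < N then τ i else true := ⟨_, rfl⟩
  have hσ2 : ∀ i b, (ξ, i, b) ∈ c.u → b = σ' i := by
    intro i b hb
    have h1 : i < N := hN _ hb
    rw [hσ']
    simp only [h1, if_true]
    exact hσ i b hb
  have hτ2 : ∀ i b, (ξ', i, b) ∈ c.u → b = τ' i := by
    intro i b hb
    have h1 : i < N := hN _ hb
    rw [hτ']
    simp only [h1, if_true]
    exact hτ i b hb
  obtain ⟨c1, h1, h2, h3⟩ := Cut_add hc hξ (N + 1) σ' (fun i b _ hb => hσ2 i b hb)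
  obtain ⟨c2, h4, h5, -⟩ := Cut_add h1.1 hξ' (N + 1) τ' (fun i b _ hb => by
    rcases h3 _ hb with h | h
    · exact hτ2 i b h
    · exact absurd h hne.symm)
  have hdiff : ∃ i, i < N + 1 ∧ σ' i ≠ τ' i := by
    refine ⟨N, by omega, ?_⟩
    rw [hσ', hτ']
    simp
  obtain ⟨hn1, hn2⟩ := Nat.find_spec hdiff
  have hn3 : ∀ i, i < Nat.find hdiff → σ' i = τ' i := by
    intro i hi
    by_contra hcon
    exact Nat.find_min hdiff hi ⟨by omega, hcon⟩
  generalize Nat.find hdiff = n at hn1 hn2 hn3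
  have g1 : ∀ i < N + 1, (ξ, i, σ' i) ∈ c2.u := fun i hi => h4.2.u (h2 i hi)
  refine ⟨c2, ex_trans hc h4 h1, ?_⟩
  rcases hb : σ' n with _ | _
  · left
    intro _
    refine ⟨n, fun m hm => ⟨σ' m, g1 m (by omega), ?_⟩, ?_, ?_⟩
    · rw [hn3 m hm]
      exact h5 m (by omega)
    · have := g1 n hn1
      rwa [hb] at this
    · have := h5 n hn1
      have e : τ' n = true := by
        rw [hb] at hn2
        cases h : τ' n
        · exact absurd h.symm hn2
        · rfl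
      rwa [e] at this
  · right
    intro _
    refine ⟨n, fun m hm => ⟨σ' m, ?_, g1 m (by omega)⟩, ?_, ?_⟩
    · rw [hn3 m hm]
      exact h5 m (by omega)
    · have := h5 n hn1
      have e : τ' n = false := by
        rw [hb] at hn2
        cases h : τ' n
        · rfl
        · exact absurd h.symm hn2
      rwa [e] at this
    · have := g1 n hn1
      rwa [hb] at this

private theorem cut3_bin (n : ℕ) : ∀ k : ℕ, k < 2 ^ n → ∃ τ : ℕ → Bool,
    ∑ i ∈ Finset.range n, (if τ i then (1 / 2 : ℚ) ^ (i + 1) else 0) = (k : ℚ) * (1 / 2) ^ n := by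
  induction n with
  | zero =>
    intro k hk
    have : k = 0 := by simpa using hk
    subst this
    exact ⟨fun _ => false, by simp⟩
  | succ n ih =>
    intro k hk
    have hk2 : k / 2 < 2 ^ n := by
      rw [pow_succ] at hk
      omega
    obtain ⟨τ, hτ⟩ := ih (k / 2) hk2
    refine ⟨fun i => if i < n then τ i else decide (k % 2 = 1), ?_⟩
    rw [Finset.sum_range_succ]
    have e : (∑ i ∈ Finset.range n, (if (if i < n then τ i else decide (k % 2 = 1)) = true then (1 / 2 : ℚ) ^ (i + 1) else 0)) =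
        ∑ i ∈ Finset.range n, (if τ i then (1 / 2 : ℚ) ^ (i + 1) else 0) := by
      refine Finset.sum_congr rfl fun i hi => ?_
      rw [if_pos (Finset.mem_range.1 hi)]
    rw [e, hτ]
    simp only [lt_irrefl, if_false, decide_eq_true_eq]
    have hk3 : (k : ℚ) = 2 * ((k / 2 : ℕ) : ℚ) + ((k % 2 : ℕ) : ℚ) := by
      exact_mod_cast (Nat.div_add_mod k 2).symm
    rcases Nat.mod_two_eq_zero_or_one k with h | h
    · rw [if_neg (by omega), hk3, h, pow_succ]
      push_cast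
      ring
    · rw [if_pos h, hk3, h, pow_succ]
      push_cast
      ring

theorem cut_interval {c : Pre} (hc : K.Ok c) (f : Bool) {γ : O} (hγ : γ < w1) {q0 q1 : ℚ} (hq : q0 < q1) :
    ∃ ξ, γ < ξ ∧ ξ < w1 ∧ ∃ c', K.ex c' c ∧ c' ∈ CutA K f ξ q0 ∧ ∀ c'', K.ex c'' c' → c'' ∉ CutA K f ξ q1 := by
  classical
  -- a new index
  obtain ⟨ξ, h1, h2, h3⟩ : ∃ ξ, γ < ξ ∧ ξ < w1 ∧ ∀ n b, (ξ, n, b) ∉ c.u := by
    have hne : (insert γ (c.u.image Prod.fst)).Nonempty := ⟨γ, Finset.mem_insert_self _ _⟩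
    have hM := Finset.max'_mem _ hne
    have hM1 : (insert γ (c.u.image Prod.fst)).max' hne < w1 := by
      rw [Finset.mem_insert, Finset.mem_image] at hM
      rcases hM with hM | ⟨v, hv, hM⟩
      · rw [hM]
        exact hγ
      · rw [← hM]
        exact hc.chain.u_lt v hv
    refine ⟨Order.succ ((insert γ (c.u.image Prod.fst)).max' hne), ?_, (Cardinal.isSuccLimit_omega 1).succ_lt hM1, ?_⟩
    · exact (Finset.le_max' _ _ (Finset.mem_insert_self _ _)).trans_lt (Order.lt_succ _)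
    · intro n b hb
      have hmem : Order.succ ((insert γ (c.u.image Prod.fst)).max' hne) ∈ insert γ (c.u.image Prod.fst) :=
        Finset.mem_insert_of_mem (Finset.mem_image.2 ⟨_, hb, rfl⟩)
      have := Finset.le_max' _ _ hmem
      exact absurd (Order.lt_succ ((insert γ (c.u.image Prod.fst)).max' hne)) (not_lt.2 this)
  -- a dyadic interval
  have hab : ((th q0 : Set.Ioo (0 : ℚ) 1) : ℚ) < ((th q1 : Set.Ioo (0 : ℚ) 1) : ℚ) := th.strictMono hq
  obtain ⟨a0, a1⟩ := (th q0).2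
  obtain ⟨b0, b1⟩ := (th q1).2
  generalize ha : ((th q0 : Set.Ioo (0 : ℚ) 1) : ℚ) = a at hab a0 a1
  generalize hb : ((th q1 : Set.Ioo (0 : ℚ) 1) : ℚ) = b at hab b0 b1
  obtain ⟨n, hn⟩ := exists_pow_lt_of_lt_one (half_pos (sub_pos.2 hab)) (by norm_num : (1 / 2 : ℚ) < 1)
  have hp : (0 : ℚ) < (1 / 2) ^ n := by positivity
  have h2n : (2 : ℚ) ^ n * (1 / 2) ^ n = 1 := by
    rw [← mul_pow]
    norm_num
  have hk0 : a * 2 ^ n ≤ (⌈a * 2 ^ n⌉₊ : ℚ) := Nat.le_ceil _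
  have hk1 : (⌈a * 2 ^ n⌉₊ : ℚ) < a * 2 ^ n + 1 := Nat.ceil_lt_add_one (by positivity)
  generalize ⌈a * 2 ^ n⌉₊ = k at hk0 hk1
  have hka : a ≤ (k : ℚ) * (1 / 2) ^ n := by
    have := mul_le_mul_of_nonneg_right hk0 hp.le
    rwa [mul_assoc, h2n, mul_one] at this
  have hkb : (k : ℚ) * (1 / 2) ^ n < a + (1 / 2) ^ n := by
    have := mul_lt_mul_of_pos_right hk1 hp
    rwa [add_mul, mul_assoc, h2n, mul_one, one_mul] at this
  have hk2 : k < 2 ^ n := by
    have h6 : (k : ℚ) * (1 / 2) ^ n < 2 ^ n * (1 / 2) ^ n := by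
      rw [h2n]
      linarith
    have h7 : (k : ℚ) < 2 ^ n := lt_of_mul_lt_mul_right h6 hp.le
    exact_mod_cast h7
  obtain ⟨τ, hτ⟩ := cut3_bin n k hk2
  obtain ⟨c', h4, h5⟩ := exists_digits hc h2 h3 n (fun i => xor f (τ i))
  have hPS : PS f c'.u ξ n ((k : ℚ) * (1 / 2) ^ n) := by
    refine ⟨fun i => xor f (τ i), h5, ?_⟩
    rw [← hτ]
    refine Finset.sum_congr rfl fun i _ => ?_
    cases f <;> simp
  refine ⟨ξ, h1, h2, c', h4, mem_CutA_of h4.1 hPS ?_, not_mem_CutA h4.1 hPS ?_⟩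
  · rw [ha]
    exact hka
  · rw [hb]
    linarith

end Code

end Pool.Agent.Lib.MP_8f49b0_lc.MM
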