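import Pool.Agent.Lib.MP_8f49b0_lc.MM.A.NoIso

/-!
# The real numbers given by the Cohen reals: definitions

`th` is an order isomorphism between `ℚ` and the rational numbers in `(0, 1)`. The real number with the index `ξ` is the cut of all `q` with `th q ≤` some partial sum of the binary expansion given by the digits of the Cohen real
(`f = false`) or by the reversed digits (`f = true`).
-/

namespace Pool.Agent.Lib.MP_8f49b0_lc.MM

theorem exists_th : Nonempty (ℚ ≃o Set.Ioo (0 : ℚ) 1) := by
  have : Nonempty (Set.Ioo (0 : ℚ) 1) := ⟨⟨1 / 2, by norm_num, by norm_num⟩⟩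
  exact Order.iso_of_countable_dense ℚ (Set.Ioo (0 : ℚ) 1)

/-- an order isomorphism between the rational numbers and those between `0` and `1` -/
noncomputable def th : ℚ ≃o Set.Ioo (0 : ℚ) 1 := Classical.choice exists_th

/-- the first `n` digits of the real with the index `ξ` are decided by `u`, and `s` is the partial sum of the binary expansion -/
def PS (f : Bool) (u : Finset (O × ℕ × Bool)) (ξ : O) (n : ℕ) (s : ℚ) : Prop :=
  ∃ σ : ℕ → Bool, (∀ i < n, (ξ, i, σ i) ∈ u) ∧ s = ∑ i ∈ Finset.range n, (if xor f (σ i) then (1 / 2 : ℚ) ^ (i + 1) else 0)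

/-- the truth value of: the rational number `q` is less than the real number with the index `ξ` -/
def CutA (K : Code) (f : Bool) (ξ : O) (q : ℚ) : Set Pre :=
  K.rg {c | K.Ok c ∧ ∃ n s, PS f c.u ξ n s ∧ ((th q : Set.Ioo (0 : ℚ) 1) : ℚ) ≤ s}

/-- functions -/
def IsU (u : Finset (O × ℕ × Bool)) : Prop := ∀ ξ n b b', (ξ, n, b) ∈ u → (ξ, n, b') ∈ u → b = b'

end Pool.Agent.Lib.MP_8f49b0_lc.MM
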