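import Pool.Agent.Lib.MP_8f49b0_lc.MM.M.Reg
import Pool.Agent.Lib.MP_8f49b0_lc.MM.I.KlCor2

/-! # No decreasing bijection of the Cohen reals (module A-NOISO), (6) of the paper

`IsoA K c0 e`: `c0` forces that `e` is (the graph of) an injective total relation on `ω₁` which reverses the order of the Cohen reals. `no_iso`: let `Z = {(c, ![ξ, η]) : K.ex c c0 ∧ c ∈ e ξ η}` (`ι = Fin 2`, or
`ι = Bool`), and apply `inc_PB none`. Unboundedness: given `a ≤ c0`, `γ`: apply `bdd_PB none` to `E n = {(c, ξ) | K.ex c c0 ∧ c ∈ e ξ (η n)}`, `η` an enumeration of `Set.Iic γ`: `a1 ≤ a`, `γ'`. Take `ξ > γ, γ'` and (total) `a2 ≤ a1`, `η` with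
`a2 ∈ e ξ η`. If `η ≤ γ` there would be `(c, ξ') ∈ E n` with `ξ' < γ'` and a common extension; `inj` gives `ξ' = ξ`. -/

namespace Pool.Agent.Lib.MP_8f49b0_lc.MM

namespace Code

/-- `c0` forces that `e` is a total injective relation which reverses the order of the Cohen reals -/
structure IsoA (K : Code) (c0 : Pre) (e : O → O → Set Pre) : Prop where
  reg : ∀ ξ η, K.Reg (e ξ η)
  total : ∀ ξ < w1, ∀ c, K.ex c c0 → ∃ c', K.ex c' c ∧ ∃ η < w1, c' ∈ e ξ η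
  inj : ∀ ξ < w1, ∀ ξ' < w1, ∀ η < w1, ∀ c, K.ex c c0 → c ∈ e ξ η → c ∈ e ξ' η → ξ = ξ'
  rev : ∀ ξ < w1, ∀ ξ' < w1, ∀ η < w1, ∀ η' < w1, ∀ c, K.ex c c0 → c ∈ e ξ η → c ∈ e ξ' η' →
    Lt c.u (fun _ : Unit => ξ) (fun _ => ξ') → ¬ Lt c.u (fun _ : Unit => η) (fun _ => η')

variable {K : Code}

private theorem noIso_enum {γ : O} (hγ : γ < w1) : ∃ f : ℕ → O, Set.Iic γ ⊆ Set.range f := by
  have hc : (Set.Iic γ).Countable := by
    have h1 : (Order.succ γ) < w1 := (Cardinal.isSuccLimit_omega 1).succ_lt hγ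
    have h2 : (Set.Iio (Order.succ γ)).Countable := by
      have h3 : (Order.succ γ).card < Cardinal.aleph 1 := by
        rw [← Cardinal.lt_ord, Cardinal.ord_aleph]
        exact h1
      have h4 : (Order.succ γ).card ≤ Cardinal.aleph0 := by
        rw [← Cardinal.succ_aleph0] at h3
        exact Order.lt_succ_iff.1 h3
      rw [← Cardinal.le_aleph0_iff_set_countable, Cardinal.mk_Iio_ordinal]
      exact Cardinal.lift_le_aleph0.2 h4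
    rwa [Order.Iio_succ] at h2
  obtain ⟨f, hf⟩ := hc.exists_eq_range ⟨γ, Set.mem_Iic.2 (le_refl _)⟩
  exact ⟨f, hf.le⟩

theorem no_iso {c0 : Pre} (hc0 : K.Ok c0) (e : O → O → Set Pre) : ¬ IsoA K c0 e := by
  intro he
  have hPB : ∀ {a : Pre}, a ∈ PB K none ↔ K.Ok a := by
    intro a
    rw [PB_none]
    rfl
  obtain ⟨z1, hz1, z2, hz2, a', ha', h0, h1, h2, h3⟩ := inc_PB K none (fun α hα => by simp at hα) (Fin 2)
    {z | ∃ c ξ η, z = (c, ![ξ, η]) ∧ K.ex c c0 ∧ c ∈ e ξ η ∧ ξ < w1 ∧ η < w1}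
    (by
      rintro z ⟨c, ξ, η, rfl, hc, -⟩
      exact hPB.2 hc.1) c0 (hPB.2 hc0) (by
      intro a ha hac γ hγ
      have haex : K.ex a c0 := ⟨hPB.1 ha, hac⟩
      obtain ⟨f, hf⟩ := noIso_enum hγ
      obtain ⟨a1, ha1, ha1a, γ', hγ', hb⟩ := bdd_PB K none (fun α hα => by simp at hα)
        (fun n => {p | K.ex p.1 c0 ∧ p.1 ∈ e p.2 (f n) ∧ f n < w1 ∧ p.2 < w1}) (fun n p hp => hp.2.2.2) a ha
      have ha1ex : K.ex a1 a := ⟨hPB.1 ha1, ha1a⟩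
      have ha10 : K.ex a1 c0 := ex_trans hc0 ha1ex haex
      have hξ : Order.succ (max γ γ') < w1 := (Cardinal.isSuccLimit_omega 1).succ_lt (max_lt hγ hγ')
      obtain ⟨a2, ha2, η, hη, ha2e⟩ := he.total _ hξ a1 ha10
      have ha20 : K.ex a2 c0 := ex_trans hc0 ha2 ha10
      refine ⟨(a2, ![Order.succ (max γ γ'), η]), ⟨a2, _, η, rfl, ha20, ha2e, hξ, hη⟩, ?_, a2, hPB.2 ha2.1,
        (ex_trans haex.1 ha2 ha1ex).2, le_refl_of_ok ha2.1⟩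
      have hγη : γ < η := by
        by_contra hcon
        push Not at hcon
        obtain ⟨n, hn⟩ := hf hcon
        obtain ⟨p, hp, hpγ, a3, ha3, ha32, ha3p⟩ := hb n a2 (hPB.2 ha2.1) ha2.2
          ⟨(a2, Order.succ (max γ γ')), ⟨ha20, by rw [hn]; exact ha2e, by rw [hn]; exact hη, hξ⟩, ha2.1,
            le_refl_of_ok ha2.1⟩
        obtain ⟨hp1, hp2, -, hp3⟩ := hp
        rw [hn] at hp2
        have hk3 : K.Ok a3 := hPB.1 ha3
        have e1 : a3 ∈ e p.2 η := (he.reg _ _).opn _ hp2 a3 ⟨hk3, ha3p⟩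
        have e2 : a3 ∈ e (Order.succ (max γ γ')) η := (he.reg _ _).opn _ ha2e a3 ⟨hk3, ha32⟩
        have e3 := he.inj _ hp3 _ hξ η hη a3 (ex_trans hc0 ⟨hk3, ha32⟩ ha20) e1 e2
        rw [e3] at hpγ
        exact absurd (hpγ.trans_le (le_max_right γ γ')) (not_lt.2 (Order.le_succ _))
      intro i
      fin_cases i
      · exact ⟨(le_max_left γ γ').trans_lt (Order.lt_succ _), hξ⟩
      · exact ⟨hγη, hη⟩)
  obtain ⟨d1, ξ1, η1, rfl, hd1, he1, hξ1, hη1⟩ := hz1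
  obtain ⟨d2, ξ2, η2, rfl, hd2, he2, hξ2, hη2⟩ := hz2
  have hk : K.Ok a' := hPB.1 ha'
  refine he.rev ξ1 hξ1 ξ2 hξ2 η1 hη1 η2 hη2 a' ⟨hk, h0⟩ ((he.reg _ _).opn _ he1 a' ⟨hk, h1⟩)
    ((he.reg _ _).opn _ he2 a' ⟨hk, h2⟩) (fun _ => ?_) (fun _ => ?_)
  · exact h3 0
  · exact h3 1

/-- the Cohen part of a condition may be extended arbitrarily -/
theorem exists_add_u {c : Pre} (hc : K.Ok c) {u : Finset (O × ℕ × Bool)} (hu : c.u ⊆ u)
    (h1 : ∀ ξ n b b', (ξ, n, b) ∈ u → (ξ, n, b') ∈ u → b = b') (h2 : ∀ v ∈ u, v.1 < w1) :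
    ∃ c', K.ex c' c ∧ c'.u = u := by
  have hg : (⟨∅, ∅, u⟩ : Pre) ∈ V0 := ⟨rfl, rfl, h1, h2⟩
  by_cases hT : c.T.Nonempty ∨ c.C.Nonempty
  · obtain ⟨h, hn⟩ := hc.chain.bot hT
    have hres : c.res 0 ∈ V0 := by
      have := hc.res_mem hn
      rw [← V_zero (K := K)]
      exact this
    have hle : K.le ⟨∅, ∅, u⟩ (c.res 0) := by
      refine ⟨hu, ?_, ?_⟩
      · rw [hres.2.1]
      · intro t ht
        rw [hres.1] at ht
        exact absurd ht (Finset.notMem_empty _)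
    obtain ⟨c', hc', hr, -⟩ := exists_glue_fst hc hn (g := ⟨∅, ∅, u⟩) (by
      change _ ∈ K.V 0
      rw [V_zero]
      exact hg) hle
    refine ⟨c', hc', ?_⟩
    have := congrArg Pre.u hr
    exact this
  · push Not at hT
    refine ⟨⟨∅, ∅, u⟩, ⟨ok_of_mem_V0 hg, hu, ?_, ?_⟩, rfl⟩
    · have : c.C = ∅ := by simpa using hT.2
      rw [this]
    · have : c.T = ∅ := by simpa using hT.1
      intro t ht
      rw [this] at ht
      exact absurd ht (Finset.notMem_empty _)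

/-- countable sets of names of countable ordinals are bounded -/
theorem exists_bdd_name {c : Pre} (hc : K.Ok c) (e : ℕ → O → Set Pre) (he : ∀ n ξ, K.Reg (e n ξ))
    (huniq : ∀ n ξ ξ', ∀ d, K.ex d c → d ∈ e n ξ → d ∈ e n ξ' → ξ = ξ') :
    ∃ c', K.ex c' c ∧ ∃ γ < w1, ∀ n, ∀ ξ < w1, ∀ d, K.ex d c' → d ∈ e n ξ → ξ < γ := by
  have hPB : ∀ {a : Pre}, a ∈ PB K none ↔ K.Ok a := by
    intro a
    rw [PB_none]
    rfl
  obtain ⟨a1, ha1, ha1c, γ, hγ, hb⟩ := bdd_PB K none (fun α hα => by simp at hα)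
    (fun n => {p | K.ex p.1 c ∧ p.1 ∈ e n p.2 ∧ p.2 < w1}) (fun n p hp => hp.2.2) c (hPB.2 hc)
  refine ⟨a1, ⟨hPB.1 ha1, ha1c⟩, γ, hγ, ?_⟩
  intro n ξ hξ d hd hde
  have hdc : K.ex d c := ex_trans hc hd ⟨hPB.1 ha1, ha1c⟩
  obtain ⟨p, ⟨hp1, hp2, hp3⟩, hpγ, a', ha', h1, h2⟩ := hb n d (hPB.2 hd.1) hd.2
    ⟨(d, ξ), ⟨hdc, hde, hξ⟩, hd.1, le_refl_of_ok hd.1⟩
  have hk : K.Ok a' := hPB.1 ha'
  have e1 : a' ∈ e n ξ := (he _ _).opn _ hde a' ⟨hk, h1⟩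
  have e2 : a' ∈ e n p.2 := (he _ _).opn _ hp2 a' ⟨hk, h2⟩
  have e3 := huniq n ξ p.2 a' (ex_trans hc ⟨hk, h1⟩ hdc) e1 e2
  rw [e3]
  exact hpγ

end Code

end Pool.Agent.Lib.MP_8f49b0_lc.MM
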